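import Pool.Agent.Lib.MP_abd978_an.Interfaces

/-!
ABD: modules CHN (chains on the sphere), ANN (annuli are connected), SPH (Harnack on spheres).
-/

set_option autoImplicit false

open MeasureTheory Metric Set Filter Topology
open scoped RealInnerProductSpace

namespace Pool.Agent.Lib.MP_abd978_an.H61

lemma exists_perp {n : ℕ} (hn : 2 ≤ n) (ξ : E n) (hξ : ‖ξ‖ = 1) : ∃ η : E n, ‖η‖ = 1 ∧ ⟪ξ, η⟫ = 0 := by
  obtain ⟨m, rfl⟩ : ∃ m, n = m + 2 := ⟨n - 2, by omega⟩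
  have hf : Fact (Module.finrank ℝ (E (m + 2)) = (m + 1) + 1) := ⟨by simp⟩
  have hξ0 : ξ ≠ 0 := by
    intro h
    rw [h, norm_zero] at hξ
    exact zero_ne_one hξ
  have h1 : Module.finrank ℝ (ℝ ∙ ξ)ᗮ = m + 1 := Submodule.finrank_orthogonal_span_singleton hξ0
  have h2 : 0 < Module.finrank ℝ (ℝ ∙ ξ)ᗮ := by omega
  have h3 := Module.finrank_pos_iff.1 h2
  obtain ⟨⟨v, hv⟩, hv0⟩ := exists_ne (0 : (ℝ ∙ ξ)ᗮ)
  have hv1 : v ≠ 0 := fun h => hv0 (Subtype.ext h)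
  have hin : ⟪ξ, v⟫ = 0 := by
    rw [Submodule.mem_orthogonal_singleton_iff_inner_right] at hv
    exact hv
  refine ⟨‖v‖⁻¹ • v, ?_, ?_⟩
  · rw [norm_smul, norm_inv, norm_norm, inv_mul_cancel₀ (norm_ne_zero_iff.2 hv1)]
  · rw [inner_smul_right, hin, mul_zero]

lemma norm_rot {n : ℕ} {ξ η : E n} (hξ : ‖ξ‖ = 1) (hη : ‖η‖ = 1) (h0 : ⟪ξ, η⟫ = 0) (a b : ℝ) :
    ‖a • ξ + b • η‖ ^ 2 = a ^ 2 + b ^ 2 := by
  rw [norm_add_sq_real, norm_smul, norm_smul, hξ, hη, inner_smul_left, inner_smul_right, h0]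
  simp

theorem chn : ChnStatement := by
  intro n δ hn hδ
  obtain ⟨N, hN⟩ := exists_nat_gt (2 * Real.pi / δ)
  have hpi := Real.pi_pos
  have hN0 : (0 : ℝ) < N := lt_trans (by positivity) hN
  refine ⟨N, ?_⟩
  intro ξ ξ' hξ hξ'
  -- a unit vector orthogonal to `ξ` with `ξ'` in the plane
  have key : ∃ η : E n, ‖η‖ = 1 ∧ ⟪ξ, η⟫ = 0 ∧ ∃ θ : ℝ, 0 ≤ θ ∧ θ ≤ Real.pi ∧
      ξ' = Real.cos θ • ξ + Real.sin θ • η := by
    set c := ⟪ξ, ξ'⟫ with hc
    set v := ξ' - c • ξ with hv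
    have hin : ⟪ξ, v⟫ = 0 := by
      rw [hv, inner_sub_right, inner_smul_right, real_inner_self_eq_norm_sq, hξ, ← hc]
      ring
    have hvn : ‖v‖ ^ 2 = 1 - c ^ 2 := by
      have h1 : ξ' = c • ξ + v := by rw [hv]; abel
      have h2 : ‖ξ'‖ ^ 2 = ‖c • ξ‖ ^ 2 + 2 * ⟪c • ξ, v⟫ + ‖v‖ ^ 2 := by
        rw [← norm_add_sq_real, ← h1]
      rw [hξ', norm_smul, hξ, inner_smul_left, hin, Real.norm_eq_abs, mul_one, sq_abs] at h2
      simp only [mul_zero, add_zero] at h2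
      linarith
    have hcle : |c| ≤ 1 := by
      have := abs_real_inner_le_norm ξ ξ'
      rw [hξ, hξ', ← hc] at this
      simpa using this
    have hc1 := (abs_le.1 hcle).1
    have hc2 := (abs_le.1 hcle).2
    have hsin : Real.sin (Real.arccos c) = ‖v‖ := by
      rw [Real.sin_arccos, ← hvn, Real.sqrt_sq (norm_nonneg _)]
    by_cases hv0 : v = 0
    · obtain ⟨η, hη1, hη2⟩ := exists_perp hn ξ hξ
      refine ⟨η, hη1, hη2, Real.arccos c, Real.arccos_nonneg _, Real.arccos_le_pi _, ?_⟩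
      rw [Real.cos_arccos hc1 hc2, hsin, hv0, norm_zero, zero_smul, add_zero]
      have : ξ' - c • ξ = 0 := by rw [← hv, hv0]
      exact sub_eq_zero.1 this
    · have hvn0 : ‖v‖ ≠ 0 := norm_ne_zero_iff.2 hv0
      refine ⟨‖v‖⁻¹ • v, ?_, ?_, Real.arccos c, Real.arccos_nonneg _, Real.arccos_le_pi _, ?_⟩
      · rw [norm_smul, norm_inv, norm_norm, inv_mul_cancel₀ hvn0]
      · rw [inner_smul_right, hin, mul_zero]
      · rw [Real.cos_arccos hc1 hc2, hsin, smul_smul, mul_inv_cancel₀ hvn0, one_smul, hv]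
        abel
  obtain ⟨η, hη, hper, θ, hθ0, hθ1, hθ⟩ := key
  refine ⟨fun i => Real.cos (θ * (i / N)) • ξ + Real.sin (θ * (i / N)) • η, ?_, ?_, ?_, ?_⟩
  · simp
  · change Real.cos (θ * ((N : ℝ) / N)) • ξ + Real.sin (θ * ((N : ℝ) / N)) • η = ξ'
    rw [div_self hN0.ne', mul_one, ← hθ]
  · intro i
    have h1 := norm_rot hξ hη hper (Real.cos (θ * (i / N))) (Real.sin (θ * (i / N)))
    rw [Real.cos_sq_add_sin_sq] at h1
    have h2 : ‖Real.cos (θ * (i / N)) • ξ + Real.sin (θ * (i / N)) • η‖ = Real.sqrt 1 := by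
      rw [← h1, Real.sqrt_sq (norm_nonneg _)]
    rw [h2, Real.sqrt_one]
  · intro i
    have hdiff : |θ * ((i : ℕ) / N) - θ * (((i + 1 : ℕ) : ℝ) / N)| ≤ Real.pi / N := by
      have h1 : θ * ((i : ℕ) / N) - θ * (((i + 1 : ℕ) : ℝ) / N) = -(θ / N) := by
        push_cast
        field_simp
        ring
      rw [h1, abs_neg, abs_of_nonneg (by positivity)]
      exact div_le_div_of_nonneg_right hθ1 hN0.le
    have h1 := (Real.abs_cos_sub_cos_le (θ * ((i : ℕ) / N)) (θ * (((i + 1 : ℕ) : ℝ) / N))).trans hdiff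
    have h2 := (Real.abs_sin_sub_sin_le (θ * ((i : ℕ) / N)) (θ * (((i + 1 : ℕ) : ℝ) / N))).trans hdiff
    rw [dist_eq_norm]
    have h3 : Real.cos (θ * ((i : ℕ) / N)) • ξ + Real.sin (θ * ((i : ℕ) / N)) • η -
        (Real.cos (θ * (((i + 1 : ℕ) : ℝ) / N)) • ξ + Real.sin (θ * (((i + 1 : ℕ) : ℝ) / N)) • η) =
        (Real.cos (θ * ((i : ℕ) / N)) - Real.cos (θ * (((i + 1 : ℕ) : ℝ) / N))) • ξ +
        (Real.sin (θ * ((i : ℕ) / N)) - Real.sin (θ * (((i + 1 : ℕ) : ℝ) / N))) • η := by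
      module
    rw [h3]
    refine (norm_add_le _ _).trans ?_
    rw [norm_smul, norm_smul, hξ, hη, mul_one, mul_one, Real.norm_eq_abs, Real.norm_eq_abs]
    have h4 : Real.pi / N + Real.pi / N ≤ δ := by
      have h5 : 2 * Real.pi / N ≤ δ := by
        rw [div_le_iff₀ hN0]
        rw [div_lt_iff₀ hδ] at hN
        linarith [mul_comm δ (N : ℝ)]
      have h6 : Real.pi / N + Real.pi / N = 2 * Real.pi / N := by ring
      rw [h6]
      exact h5
    linarith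

theorem ann : AnnStatement := by
  intro n y r R hn hr hrR
  have hrank : 1 < Module.rank ℝ (E n) := by
    rw [← Module.finrank_eq_rank, finrank_euclideanSpace_fin]
    exact_mod_cast hn
  have h1 : IsConnected (Ioo r R ×ˢ sphere (0 : E n) 1) :=
    (isConnected_Ioo hrR).prod (isConnected_sphere hrank 0 zero_le_one)
  have h2 : {z : E n | r < dist z y ∧ dist z y < R} =
      (fun q : ℝ × E n => y + q.1 • q.2) '' (Ioo r R ×ˢ sphere (0 : E n) 1) := by
    ext z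
    simp only [mem_ofPred_eq, mem_image, mem_prod, mem_Ioo, mem_sphere_iff_norm, sub_zero, Prod.exists]
    constructor
    · rintro ⟨h3, h4⟩
      have h5 : 0 < dist z y := lt_of_le_of_lt hr h3
      rw [dist_eq_norm] at h3 h4 h5
      refine ⟨‖z - y‖, ‖z - y‖⁻¹ • (z - y), ⟨⟨h3, h4⟩, ?_⟩, ?_⟩
      · rw [norm_smul, norm_inv, norm_norm, inv_mul_cancel₀ h5.ne']
      · rw [smul_smul, mul_inv_cancel₀ h5.ne', one_smul]
        abel
    · rintro ⟨t, ξ, ⟨⟨h3, h4⟩, h5⟩, rfl⟩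
      rw [dist_eq_norm, add_sub_cancel_left, norm_smul, h5, mul_one, Real.norm_eq_abs,
        abs_of_nonneg (hr.trans h3.le)]
      exact ⟨h3, h4⟩
  rw [h2]
  exact h1.image _ (by fun_prop)

theorem sph (hchn : ChnStatement) (hharn : HarnStatement) : SphStatement := by
  intro n p μ a α β hn hop
  obtain ⟨C, hC1, hC⟩ := hharn n p μ a α β hop
  obtain ⟨N, hN⟩ := hchn n (1 / 256) hn (by norm_num)
  refine ⟨C ^ N, one_le_pow₀ hC1, ?_⟩
  intro y ρ U u hρ hU hu hann x hx x' hx'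
  have hxn : ‖ρ⁻¹ • (x - y)‖ = 1 := by
    rw [mem_sphere, dist_eq_norm] at hx
    rw [norm_smul, norm_inv, Real.norm_of_nonneg hρ.le, hx, inv_mul_cancel₀ hρ.ne']
  have hxn' : ‖ρ⁻¹ • (x' - y)‖ = 1 := by
    rw [mem_sphere, dist_eq_norm] at hx'
    rw [norm_smul, norm_inv, Real.norm_of_nonneg hρ.le, hx', inv_mul_cancel₀ hρ.ne']
  obtain ⟨c, hc0, hcN, hc1, hcd⟩ := hN _ _ hxn hxn'
  have hrec : ∀ ξ : E n, y + ρ • (ρ⁻¹ • (ξ - y)) = ξ := by
    intro ξ
    rw [smul_smul, mul_inv_cancel₀ hρ.ne', one_smul]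
    abel
  have hdist : ∀ i, dist (y + ρ • c i) y = ρ := by
    intro i
    rw [dist_eq_norm, add_sub_cancel_left, norm_smul, hc1 i, mul_one, Real.norm_of_nonneg hρ.le]
  have hball : ∀ i, ∀ z ∈ closedBall (y + ρ • c i) (64 * (ρ / 256)), z ∈ U ∧ 0 ≤ u z := by
    intro i z hz
    rw [mem_closedBall] at hz
    have h1 := dist_triangle z (y + ρ • c i) y
    have h2 := dist_triangle (y + ρ • c i) z y
    rw [hdist i] at h1 h2
    rw [dist_comm (y + ρ • c i) z] at h2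
    refine hann z ?_ ?_
    · linarith
    · linarith
  have hstep : ∀ i, u (y + ρ • c i) ≤ C * u (y + ρ • c (i + 1)) := by
    intro i
    have hr : 0 < ρ / 256 := by positivity
    refine hC U u (y + ρ • c i) (ρ / 256) hU hu hr (fun z hz => (hball i z hz).1)
      (fun z hz => (hball i z hz).2) _ (mem_closedBall_self hr.le) _ ?_
    rw [mem_closedBall, dist_comm, dist_add_left, dist_eq_norm, ← smul_sub, norm_smul,
      Real.norm_of_nonneg hρ.le, ← dist_eq_norm]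
    have := mul_le_mul_of_nonneg_left (hcd i) hρ.le
    linarith
  have hnn : ∀ i, 0 ≤ u (y + ρ • c i) := fun i =>
    (hball i _ (mem_closedBall_self (by positivity))).2
  have hind : ∀ i, u (y + ρ • c 0) ≤ C ^ i * u (y + ρ • c i) := by
    intro i
    induction i with
    | zero => simp
    | succ i ih =>
      have hCi : 0 ≤ C ^ i := by positivity
      calc u (y + ρ • c 0) ≤ C ^ i * u (y + ρ • c i) := ih
        _ ≤ C ^ i * (C * u (y + ρ • c (i + 1))) := mul_le_mul_of_nonneg_left (hstep i) hCi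
        _ = C ^ (i + 1) * u (y + ρ • c (i + 1)) := by ring
  have := hind N
  rw [hc0, hcN, hrec, hrec] at this
  exact this

end Pool.Agent.Lib.MP_abd978_an.H61
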